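import Mathlib
import Pool.Agent.Y294.FO.Conv
import Pool.Agent.Y294.FO.Odd
import Pool.Agent.Y294.FO.Plane
import Pool.Agent.Y182.FO.Exit
import Pool.Agent.Y182.FO.Len
import Pool.Agent.Y240.FO.Surj
import Pool.Agent.Y240.FO.Ell
import Pool.Agent.Y908.FO.CONST
import Pool.Agent.Y908.FO.STAR
import Pool.Agent.Y908.FO.CONV
import Pool.Agent.Y865.FO.C2

/-!
# MP_3080d1_gt (Wunderlich): mirrors focusing after an even number of reflections

Part 1 answers the question (closed analytic curves, two reflections: no).  Part 2: in every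
dimension `n ≥ 2`, no region of class `C^{1,1}`, convex or not, focuses a point `x` onto a point
`y ≠ x` after an even number of reflections without a grazing reflection.  Part 3: in a convex
region a whole ball of directions misses `y` after an even number of reflections.  Part 4: after
every odd number of reflections there are convex regions which focus `x` onto `y`.  Part 5: parts 2
and 3 apply to all bounded connected regions `{f < 0}` of class `C²`.

Proof of part 2.  The path depends on its first direction in a locally Lipschitz way (two-sided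
touching balls), so all paths have the same length.  The final direction is a continuous injective
function of the first direction, so it takes all values (invariance of domain), and all rays from
`y` are focused onto `x` with the same length.  The path of the ray from `x` through `y` is then at
the same time a path from `y` to `x`; comparison of the two lengths shows that its last leg runs from
`y` to `x`.  So the path equals its own reverse, and for an even number `2 m` of reflections its
middle leg would have to agree with its reverse, which is absurd.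

Authors of the parts: helper182 (Exit, Len), helper240 (Surj, Ell), helper908 (CONST, STAR, CONV),
helper865 (C2), helper294 (the rest).
-/

open Set Metric
open scoped RealInnerProductSpace Gradient
open Pool.Agent.Y294.FO

namespace Pool.Agent.Results.MP_3080d1_gt.EvenReflections

/-- **Wunderlich's question, and the case of all even numbers of reflections in all dimensions.** -/
theorem result :
    -- Part 1: no closed analytic plane curve focuses `x` onto `y ≠ x` after two reflections
    (∀ (γ : ℝ → ℂ) (T : ℝ), AnalyticClosedCurve γ T → ∀ (Ω : Set ℂ) (ν : ℂ → ℂ),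
      BoundedBy γ Ω ν → ∀ x ∈ Ω, ∀ y ∈ Ω, x ≠ y →
        {u : ℂ | ‖u‖ = 1 ∧ ¬ ∃ (P v : ℕ → ℂ) (τ : ℕ → ℝ), v 0 = u ∧
          WeakLightPath Ω ν 2 x y P v τ}.Infinite) ∧
    ∀ (E : Type) [NormedAddCommGroup E] [InnerProductSpace ℝ E] [FiniteDimensional ℝ E],
      1 < Module.finrank ℝ E →
      -- Part 2: arbitrary regions of class `C^{1,1}`, even number of non-grazing reflections
      (∀ (Ω : Set E) (ν : E → E) (r : ℝ), Region Ω ν r → ∀ x ∈ Ω, ∀ y ∈ Ω, x ≠ y →
        ∀ k : ℕ, Even k → ∃ u : E, ‖u‖ = 1 ∧ ∀ (P v : ℕ → E) (τ : ℕ → ℝ), v 0 = u →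
          LightPath Ω ν k x y P v τ → ∃ i < k, ⟪ν (P (i + 1)), v i⟫ = 0) ∧
      -- Part 3: convex regions, a whole ball of directions fails
      (∀ (Ω : Set E) (ν : E → E) (r : ℝ), Region Ω ν r → Convex ℝ Ω →
        ∀ x ∈ Ω, ∀ y ∈ Ω, x ≠ y → ∀ k : ℕ, Even k →
          ∃ (u₀ : E) (δ : ℝ), ‖u₀‖ = 1 ∧ 0 < δ ∧ ∀ u : E, ‖u‖ = 1 → ‖u - u₀‖ < δ →
            ¬ ∃ (P v : ℕ → E) (τ : ℕ → ℝ), v 0 = u ∧ LightPath Ω ν k x y P v τ) ∧
      -- Part 4: after an odd number of reflections convex regions do focus `x` onto `y`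
      (∀ x y : E, ∀ k : ℕ, Odd k → ∃ (Ω : Set E) (ν : E → E) (r : ℝ), Region Ω ν r ∧
        Convex ℝ Ω ∧ x ∈ Ω ∧ y ∈ Ω ∧ ∀ u : E, ‖u‖ = 1 →
          ∃ (P v : ℕ → E) (τ : ℕ → ℝ), v 0 = u ∧ LightPath Ω ν k x y P v τ) ∧
      -- Part 5: bounded connected regions `{f < 0}` of class `C²` are regions in this sense
      (∀ [CompleteSpace E] (f : E → ℝ), ContDiff ℝ 2 f → Bornology.IsBounded {z : E | f z < 0} →
        IsConnected {z : E | f z < 0} → (∀ z : E, f z = 0 → ∇ f z ≠ 0) →
          ∃ r : ℝ, Region {z : E | f z < 0} (fun z => ‖∇ f z‖⁻¹ • ∇ f z) r) := by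
  refine ⟨fun γ T hγ Ω ν hΩ x hx y hy hxy => plane_core hγ hΩ hx hy hxy, ?_⟩
  intro E _ _ _ h2
  refine ⟨?_, ?_, ?_, ?_⟩
  · intro Ω ν r h x hx y hy hxy k hk
    by_contra hcon
    push Not at hcon
    refine even_core (Pool.Agent.Y182.FO.Exit.main E) (Pool.Agent.Y182.FO.Len.main E)
      (Pool.Agent.Y908.FO.CONST.main E) (Pool.Agent.Y240.FO.Surj.main E)
      (Pool.Agent.Y908.FO.STAR.main E) h2 h hx hy hxy hk fun u hu => ?_
    obtain ⟨P, v, τ, hv, hP, hne⟩ := hcon u hu
    refine ⟨P, v, τ, hv, hP, fun i hi => ?_⟩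
    have hst := hP.step i hi.le
    have hb := hP.bdry i hi
    have hs := hP.inside i hi.le
    have hn := hne i hi
    rw [hst] at hb hs hn ⊢
    exact lt_of_le_of_ne (h.inner_nonneg (hP.pos i hi.le) hb hs) (Ne.symm hn)
  · intro Ω ν r h hc x hx y hy hxy k hk
    exact convex_core (Pool.Agent.Y182.FO.Exit.main E) (Pool.Agent.Y182.FO.Len.main E)
      (Pool.Agent.Y908.FO.CONST.main E) (Pool.Agent.Y240.FO.Surj.main E)
      (Pool.Agent.Y908.FO.STAR.main E) (Pool.Agent.Y908.FO.CONV.main E) h2 h hc hx hy hxy hk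
  · intro x y k hk
    have hl : ‖x - y‖ < ‖x - y‖ + 1 := by linarith
    obtain ⟨r, hr, hc⟩ := Pool.Agent.Y240.FO.Ell.main E x y _ hl
    refine ⟨_, _, r, hr, hc, ?_, ?_, fun u hu => odd_main x y _ hl k hk u hu⟩
    · show ‖x - x‖ + ‖x - y‖ < ‖x - y‖ + 1
      simp
    · show ‖y - x‖ + ‖y - y‖ < ‖x - y‖ + 1
      simp [norm_sub_rev]
  · intro _
    exact Pool.Agent.Y865.FO.main E

end Pool.Agent.Results.MP_3080d1_gt.EvenReflections
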